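import Pool.Agent.H396Z.FPP.Defs

set_option autoImplicit false

/-! Basic facts on passage times in `ℤ^2`. -/

namespace Pool.Agent.H396Z.FPP

open MeasureTheory
open scoped NNReal

theorem pathTime_nil {d : ℕ} (τ : (lattice d).edgeSet → ℝ≥0) (u : Fin d → ℤ) :
    pathTime τ (SimpleGraph.Walk.nil : (lattice d).Walk u u) = 0 := by
  simp [pathTime]

theorem pathTime_cons {d : ℕ} (τ : (lattice d).edgeSet → ℝ≥0) {u v w : Fin d → ℤ}
    (h : (lattice d).Adj u v) (r : (lattice d).Walk v w) :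
    pathTime τ (SimpleGraph.Walk.cons h r) = τ ⟨s(u, v), h⟩ + pathTime τ r := by
  simp [pathTime]

theorem pathTime_concat {d : ℕ} (τ : (lattice d).edgeSet → ℝ≥0) {u v w : Fin d → ℤ}
    (r : (lattice d).Walk u v) (h : (lattice d).Adj v w) :
    pathTime τ (r.concat h) = pathTime τ r + τ ⟨s(v, w), h⟩ := by
  simp [pathTime, SimpleGraph.Walk.darts_concat]

theorem passageTime_le {d : ℕ} (τ : (lattice d).edgeSet → ℝ≥0) {u v : Fin d → ℤ}
    (r : (lattice d).Walk u v) : passageTime τ u v ≤ pathTime τ r :=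
  ciInf_le (OrderBot.bddBelow _) r

theorem passageTime_self {d : ℕ} (τ : (lattice d).edgeSet → ℝ≥0) (u : Fin d → ℤ) :
    passageTime τ u u = 0 :=
  le_antisymm ((passageTime_le τ SimpleGraph.Walk.nil).trans (pathTime_nil τ u).le) bot_le

theorem passageTime_step {d : ℕ} (τ : (lattice d).edgeSet → ℝ≥0) {u v w : Fin d → ℤ}
    (hr : (lattice d).Reachable u v) (h : (lattice d).Adj v w) :
    passageTime τ u w ≤ passageTime τ u v + τ ⟨s(v, w), h⟩ := by
  have : Nonempty ((lattice d).Walk u v) := hr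
  rw [← tsub_le_iff_right]
  refine le_ciInf fun r => ?_
  rw [tsub_le_iff_right, ← pathTime_concat]
  exact passageTime_le τ _

theorem potential_le_pathTime {d : ℕ} (τ : (lattice d).edgeSet → ℝ≥0) (ψ : (Fin d → ℤ) → ℝ)
    (hψ : ∀ u v (h : (lattice d).Adj u v), ψ v - ψ u ≤ τ ⟨s(u, v), h⟩) {u v : Fin d → ℤ}
    (r : (lattice d).Walk u v) : ψ v - ψ u ≤ pathTime τ r := by
  induction r with
  | nil => simp
  | cons h r ih =>
    rw [pathTime_cons, NNReal.coe_add]
    have := hψ _ _ h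
    linarith

theorem potential_le_passageTime {d : ℕ} (τ : (lattice d).edgeSet → ℝ≥0) (ψ : (Fin d → ℤ) → ℝ)
    (hψ : ∀ u v (h : (lattice d).Adj u v), ψ v - ψ u ≤ τ ⟨s(u, v), h⟩) {u v : Fin d → ℤ}
    (hr : (lattice d).Reachable u v) : ψ v - ψ u ≤ passageTime τ u v := by
  have : Nonempty ((lattice d).Walk u v) := hr
  have : (ψ v - ψ u).toNNReal ≤ passageTime τ u v :=
    le_ciInf fun r => Real.toNNReal_le_iff_le_coe.2 (potential_le_pathTime τ ψ hψ r)
  exact Real.toNNReal_le_iff_le_coe.1 this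

theorem measurable_pathTime {d : ℕ} {u v : Fin d → ℤ} (r : (lattice d).Walk u v) :
    Measurable fun τ : (lattice d).edgeSet → ℝ≥0 => pathTime τ r := by
  induction r with
  | nil => simp only [pathTime_nil]; exact measurable_const
  | cons h r ih =>
    simp only [pathTime_cons]
    exact (measurable_pi_apply _).add ih

theorem measurable_passageTime {d : ℕ} (u v : Fin d → ℤ) :
    Measurable fun τ : (lattice d).edgeSet → ℝ≥0 => passageTime τ u v := by
  have : Countable ((lattice d).Walk u v) :=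
    Function.Injective.countable (SimpleGraph.Walk.support_injective (G := lattice d) (u := u) (v := v))
  exact Measurable.iInf fun r => measurable_pathTime r

theorem adj_iff (u v : Fin 2 → ℤ) : (lattice 2).Adj u v ↔ |u 0 - v 0| + |u 1 - v 1| = 1 := by
  simp [lattice, Fin.sum_univ_two]

theorem adj_h (x y : ℤ) : (lattice 2).Adj ![x, y] ![x + 1, y] := by
  rw [adj_iff]; simp

theorem adj_v (x y : ℤ) : (lattice 2).Adj ![x, y] ![x, y + 1] := by
  rw [adj_iff]; simp

theorem reach (x y : ℤ) : (lattice 2).Reachable ![0, 0] ![x, y] := by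
  have h1 : ∀ x : ℤ, (lattice 2).Reachable ![0, 0] ![x, 0] := by
    intro x
    induction x using Int.induction_on with
    | zero => exact SimpleGraph.Reachable.refl _
    | succ i ih => exact ih.trans (adj_h _ _).reachable
    | pred i ih =>
      have := (adj_h (-(i : ℤ) - 1) 0).symm.reachable
      rw [sub_add_cancel] at this
      exact ih.trans this
  induction y using Int.induction_on with
  | zero => exact h1 x
  | succ i ih => exact ih.trans (adj_v _ _).reachable
  | pred i ih =>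
    have := (adj_v x (-(i : ℤ) - 1)).symm.reachable
    rw [sub_add_cancel] at this
    exact ih.trans this

/-- index set for the edges of `ℤ^2` -/
abbrev Idx : Type := (ℤ × ℤ) × Bool

/-- the edge with a given index -/
def edgeOf (i : Idx) : (lattice 2).edgeSet :=
  match i with
  | ((x, y), false) => ⟨s(![x, y], ![x + 1, y]), adj_h x y⟩
  | ((x, y), true) => ⟨s(![x, y], ![x, y + 1]), adj_v x y⟩

theorem vec_eq_iff (a b c d : ℤ) : (![a, b] : Fin 2 → ℤ) = ![c, d] ↔ a = c ∧ b = d := by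
  simp [funext_iff, Fin.forall_fin_two]

theorem edgeOf_injective : Function.Injective edgeOf := by
  rintro ⟨⟨x, y⟩, b⟩ ⟨⟨x', y'⟩, b'⟩ h
  replace h := congrArg Subtype.val h
  cases b <;> cases b' <;>
    simp only [edgeOf, Sym2.eq_iff, vec_eq_iff] at h <;>
    simp only [Prod.mk.injEq, and_true, Bool.false_eq_true, Bool.true_eq_false, and_false] <;>
    omega

theorem vec_eta (u : Fin 2 → ℤ) : u = ![u 0, u 1] := by
  funext i; fin_cases i <;> rfl

theorem adj_cases {u v : Fin 2 → ℤ} (h : (lattice 2).Adj u v) :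
    (∃ x y, u = ![x, y] ∧ v = ![x + 1, y]) ∨ (∃ x y, v = ![x, y] ∧ u = ![x + 1, y]) ∨
      (∃ x y, u = ![x, y] ∧ v = ![x, y + 1]) ∨ (∃ x y, v = ![x, y] ∧ u = ![x, y + 1]) := by
  rw [adj_iff] at h
  have hu := vec_eta u
  have hv := vec_eta v
  have key : (v 0 = u 0 + 1 ∧ v 1 = u 1) ∨ (u 0 = v 0 + 1 ∧ u 1 = v 1) ∨
      (v 0 = u 0 ∧ v 1 = u 1 + 1) ∨ (u 0 = v 0 ∧ u 1 = v 1 + 1) := by
    rcases abs_cases (u 0 - v 0) with h1 | h1 <;> rcases abs_cases (u 1 - v 1) with h2 | h2 <;>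
      omega
  rcases key with ⟨h1, h2⟩ | ⟨h1, h2⟩ | ⟨h1, h2⟩ | ⟨h1, h2⟩
  · exact Or.inl ⟨u 0, u 1, hu, by rw [← h1, ← h2]; exact hv⟩
  · exact Or.inr (Or.inl ⟨v 0, v 1, hv, by rw [← h1, ← h2]; exact hu⟩)
  · exact Or.inr (Or.inr (Or.inl ⟨u 0, u 1, hu, by rw [← h1, ← h2]; exact hv⟩))
  · exact Or.inr (Or.inr (Or.inr ⟨v 0, v 1, hv, by rw [← h1, ← h2]; exact hu⟩))

theorem edgeOf_surjective : Function.Surjective edgeOf := by
  rintro ⟨e, he⟩
  induction e using Sym2.ind with
  | _ u v =>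
    rcases adj_cases (show (lattice 2).Adj u v from he) with
      ⟨x, y, rfl, rfl⟩ | ⟨x, y, rfl, rfl⟩ | ⟨x, y, rfl, rfl⟩ | ⟨x, y, rfl, rfl⟩
    · exact ⟨((x, y), false), rfl⟩
    · exact ⟨((x, y), false), Subtype.ext Sym2.eq_swap⟩
    · exact ⟨((x, y), true), rfl⟩
    · exact ⟨((x, y), true), Subtype.ext Sym2.eq_swap⟩

/-- the edges of `ℤ^2` are indexed by `Idx` -/
noncomputable def edgeEquiv : Idx ≃ (lattice 2).edgeSet :=
  Equiv.ofBijective edgeOf ⟨edgeOf_injective, edgeOf_surjective⟩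

/-- edge weights from weights on the index set -/
noncomputable def toW (ω : Idx → ℝ≥0) : (lattice 2).edgeSet → ℝ≥0 := fun e => ω (edgeEquiv.symm e)

theorem toW_edgeOf (ω : Idx → ℝ≥0) (i : Idx) : toW ω (edgeOf i) = ω i := by
  have : edgeOf i = edgeEquiv i := rfl
  rw [toW, this, Equiv.symm_apply_apply]

theorem measurable_toW : Measurable toW := by
  unfold toW
  fun_prop

/-- passage time from the origin, in coordinates -/
noncomputable def T (ω : Idx → ℝ≥0) (x y : ℤ) : ℝ := passageTime (toW ω) ![0, 0] ![x, y]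

theorem T_zero (ω : Idx → ℝ≥0) : T ω 0 0 = 0 := by
  rw [T, passageTime_self]; rfl

theorem T_h (ω : Idx → ℝ≥0) (x y : ℤ) :
    T ω (x + 1) y ≤ T ω x y + ω ((x, y), false) ∧ T ω x y ≤ T ω (x + 1) y + ω ((x, y), false) := by
  have e := toW_edgeOf ω ((x, y), false)
  constructor
  · have := passageTime_step (toW ω) (reach x y) (adj_h x y)
    rw [← e]
    exact_mod_cast this
  · have := passageTime_step (toW ω) (reach (x + 1) y) (adj_h x y).symm
    have e' : toW ω ⟨s(![x + 1, y], ![x, y]), (adj_h x y).symm⟩ = ω ((x, y), false) := by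
      rw [← e]; congr 1; exact Subtype.ext Sym2.eq_swap
    rw [← e']
    exact_mod_cast this

theorem T_v (ω : Idx → ℝ≥0) (x y : ℤ) :
    T ω x (y + 1) ≤ T ω x y + ω ((x, y), true) ∧ T ω x y ≤ T ω x (y + 1) + ω ((x, y), true) := by
  have e := toW_edgeOf ω ((x, y), true)
  constructor
  · have := passageTime_step (toW ω) (reach x y) (adj_v x y)
    rw [← e]
    exact_mod_cast this
  · have := passageTime_step (toW ω) (reach x (y + 1)) (adj_v x y).symm
    have e' : toW ω ⟨s(![x, y + 1], ![x, y]), (adj_v x y).symm⟩ = ω ((x, y), true) := by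
      rw [← e]; congr 1; exact Subtype.ext Sym2.eq_swap
    rw [← e']
    exact_mod_cast this

theorem le_T (ω : Idx → ℝ≥0) (ψ : ℤ → ℤ → ℝ)
    (hh : ∀ x y, ψ (x + 1) y - ψ x y ≤ ω ((x, y), false) ∧ ψ x y - ψ (x + 1) y ≤ ω ((x, y), false))
    (hv : ∀ x y, ψ x (y + 1) - ψ x y ≤ ω ((x, y), true) ∧ ψ x y - ψ x (y + 1) ≤ ω ((x, y), true))
    (x y : ℤ) : ψ x y - ψ 0 0 ≤ T ω x y := by
  have := potential_le_passageTime (toW ω) (fun u => ψ (u 0) (u 1)) (by
    intro u v h
    rcases adj_cases h with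
      ⟨x, y, rfl, rfl⟩ | ⟨x, y, rfl, rfl⟩ | ⟨x, y, rfl, rfl⟩ | ⟨x, y, rfl, rfl⟩
    · have e : toW ω ⟨s(![x, y], ![x + 1, y]), h⟩ = ω ((x, y), false) :=
        toW_edgeOf ω ((x, y), false)
      rw [e]; simpa using (hh x y).1
    · have e : toW ω ⟨s(![x + 1, y], ![x, y]), h⟩ = ω ((x, y), false) := by
        rw [← toW_edgeOf ω ((x, y), false)]; congr 1; exact Subtype.ext Sym2.eq_swap
      rw [e]; simpa using (hh x y).2
    · have e : toW ω ⟨s(![x, y], ![x, y + 1]), h⟩ = ω ((x, y), true) :=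
        toW_edgeOf ω ((x, y), true)
      rw [e]; simpa using (hv x y).1
    · have e : toW ω ⟨s(![x, y + 1], ![x, y]), h⟩ = ω ((x, y), true) := by
        rw [← toW_edgeOf ω ((x, y), true)]; congr 1; exact Subtype.ext Sym2.eq_swap
      rw [e]; simpa using (hv x y).2) (reach x y)
  simpa [T] using this

theorem measurable_T (x y : ℤ) : Measurable fun ω : Idx → ℝ≥0 => T ω x y :=
  ((measurable_passageTime _ _).comp measurable_toW).coe_nnreal_real

theorem map_toW (F : Measure ℝ≥0) [IsProbabilityMeasure F] :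
    (Measure.infinitePi fun _ : Idx => F).map toW = weightLaw 2 F :=
  Measure.map_infinitePi_infinitePi_of_inj (P := fun _ : Idx => F) edgeEquiv.symm.injective

end Pool.Agent.H396Z.FPP
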