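import Mathlib

set_option autoImplicit false

/-! Deterministic combinatorial part: integer potentials on the square lattice. -/

namespace Pool.Agent.H396Z.FPP

open Finset

/-- the energy of a coarse weight -/
def en (w : ℕ) : ℕ := if w = 0 then 0 else if w = 1 then 2 else 3

theorem en_cases (w : ℕ) : (w = 0 ∧ en w = 0) ∨ (w = 1 ∧ en w = 2) ∨ (2 ≤ w ∧ en w = 3) := by
  unfold en
  split_ifs <;> omega

theorem line_aux (g : ℤ → ℤ) (w : ℤ → ℕ) (a : ℤ) : ∀ b, a ≤ b →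
    (∀ i, a ≤ i → i < b → g (i + 1) - g i ≤ w i ∧ g i - g (i + 1) ≤ w i) →
    (∑ i ∈ Ico a b, en (w i) = 0 → g a = g b) ∧ ∑ i ∈ Ico a b, en (w i) ≠ 1 ∧
      (∑ i ∈ Ico a b, en (w i) = 2 → g a - g b ≤ 1 ∧ g b - g a ≤ 1) := by
  intro b hab
  induction b, hab using Int.leInduction with
  | base => intro _; simp
  | succ b hb ih =>
    intro h
    have ih' := ih (fun i h1 h2 => h i h1 (by omega))
    have hb' := h b hb (by omega)
    rw [← Finset.insert_Ico_right_eq_Ico_add_one hb, Finset.sum_insert (by simp)]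
    have := en_cases (w b)
    omega

theorem line_two (g : ℤ → ℤ) (w : ℤ → ℕ) (a b : ℤ) (hab : a ≤ b)
    (h : ∀ i, a ≤ i → i < b → g (i + 1) - g i ≤ w i ∧ g i - g (i + 1) ≤ w i)
    (hne : g a ≠ g b) : 2 ≤ ∑ i ∈ Ico a b, en (w i) := by
  have := line_aux g w a b hab h
  omega

theorem line_three (g : ℤ → ℤ) (w : ℤ → ℕ) (a b : ℤ) (hab : a ≤ b)
    (h : ∀ i, a ≤ i → i < b → g (i + 1) - g i ≤ w i ∧ g i - g (i + 1) ≤ w i)
    (hne : 2 ≤ g a - g b ∨ 2 ≤ g b - g a) : 3 ≤ ∑ i ∈ Ico a b, en (w i) := by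
  have := line_aux g w a b hab h
  omega

theorem line_zero (g : ℤ → ℤ) (w : ℤ → ℕ) (a b : ℤ) (hab : a ≤ b)
    (h : ∀ i, a ≤ i → i < b → g (i + 1) - g i ≤ w i ∧ g i - g (i + 1) ≤ w i)
    (hz : ∀ i, a ≤ i → i < b → w i = 0) : g a = g b := by
  refine (line_aux g w a b hab h).1 (Finset.sum_eq_zero fun i hi => ?_)
  rw [Finset.mem_Ico] at hi
  rw [hz i hi.1 hi.2]; rfl

theorem sum_Ico_split (f : ℤ → ℕ) {a b c : ℤ} (hab : a ≤ b) (hbc : b ≤ c) :
    ∑ i ∈ Ico a c, f i = ∑ i ∈ Ico a b, f i + ∑ i ∈ Ico b c, f i := by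
  rw [← Finset.Ico_union_Ico_eq_Ico hab hbc,
    Finset.sum_union (Finset.Ico_disjoint_Ico_consecutive a b c)]

theorem sum_Ico_le_Icc (f : ℤ → ℕ) (a b : ℤ) : ∑ i ∈ Ico a b, f i ≤ ∑ i ∈ Icc a b, f i :=
  Finset.sum_le_sum_of_subset Finset.Ico_subset_Icc_self

/-- `φ` is a potential for the horizontal weights `h` and the vertical weights `v`. -/
def Lip (h v : ℤ → ℤ → ℕ) (φ : ℤ → ℤ → ℤ) : Prop :=
  ∀ x y, (φ (x + 1) y - φ x y ≤ h x y ∧ φ x y - φ (x + 1) y ≤ h x y) ∧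
    (φ x (y + 1) - φ x y ≤ v x y ∧ φ x y - φ x (y + 1) ≤ v x y)

/-- energy of the column `x` -/
noncomputable def col (W : ℤ) (v : ℤ → ℤ → ℕ) (x : ℤ) : ℕ := ∑ y ∈ Icc (-W) W, en (v x y)

/-- energy of the row `y` -/
noncomputable def row (W N : ℤ) (h : ℤ → ℤ → ℕ) (y : ℤ) : ℕ := ∑ x ∈ Icc (-W) (N + W), en (h x y)

/-- horizontal weights after the deletion of the strip to the right of column `j` -/
def delH (j : ℤ) (h : ℤ → ℤ → ℕ) (x y : ℤ) : ℕ := if x < j then h x y else h (x + 1) y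

/-- vertical weights after the deletion of the strip to the right of column `j` -/
def delV (j : ℤ) (v : ℤ → ℤ → ℕ) (x y : ℤ) : ℕ := if x ≤ j then v x y else v (x + 1) y

theorem sum_two_le (C : ℤ → ℕ) (n : ℕ) (p q : ℤ) (hp : p ∈ Icc (0 : ℤ) (n + 1))
    (hq : q ∈ Icc (0 : ℤ) (n + 1)) (hpq : p ≠ q)
    (hC : ∀ x ∈ Icc (0 : ℤ) (n + 1), x ≠ p → x ≠ q → 4 ≤ C x) :
    C p + C q + 4 * n ≤ ∑ x ∈ Icc (0 : ℤ) (n + 1), C x := by
  have hq' : q ∈ (Icc (0 : ℤ) (n + 1)).erase p := Finset.mem_erase.2 ⟨hpq.symm, hq⟩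
  rw [← Finset.add_sum_erase _ _ hp, ← Finset.add_sum_erase _ _ hq']
  have hcard : (((Icc (0 : ℤ) (n + 1)).erase p).erase q).card = n := by
    rw [Finset.card_erase_of_mem hq', Finset.card_erase_of_mem hp, Int.card_Icc]
    omega
  have := Finset.card_nsmul_le_sum (((Icc (0 : ℤ) (n + 1)).erase p).erase q) C 4 (by
    intro x hx
    rw [Finset.mem_erase, Finset.mem_erase] at hx
    exact hC x hx.2.2 hx.2.1 hx.1)
  rw [hcard, smul_eq_mul] at this
  have h2 : n * 4 ≤ ∑ x ∈ ((Icc (0 : ℤ) (n + 1)).erase p).erase q, C x := this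
  omega

/-- The main deterministic lemma, for a potential that is constant outside a box. -/
theorem delete_global (h v : ℤ → ℤ → ℕ) (φ : ℤ → ℤ → ℤ) (n : ℕ) (W a j : ℤ) (hW : 0 ≤ W)
    (hL : Lip h v φ) (ha0 : 0 ≤ a) (ha2 : a ≤ 2) (h0 : φ 0 0 = 0) (hN : φ (n + 1) 0 = 2)
    (hout : ∀ x y, (y ≤ -W ∨ W ≤ y ∨ x ≤ -W ∨ (n + 1 : ℤ) + W ≤ x) → φ x y = a)
    (hE : row W (n + 1) h 0 + ∑ x ∈ Icc (0 : ℤ) (n + 1), col W v x ≤ 4 * n + 11)
    (hj0 : 0 ≤ j) (hjn : j ≤ n) (hheavy : ∀ i, 0 ≤ i → i < j → 4 ≤ col W v i)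
    (hj : j = n ∨ col W v j ≤ 3) :
    ∃ ψ : ℤ → ℤ → ℤ, Lip (delH j h) (delV j v) ψ ∧ ψ 0 0 = 0 ∧ ψ n 0 = 2 := by
  have hv : ∀ x a b, ∀ i, a ≤ i → i < b →
      φ x (i + 1) - φ x i ≤ v x i ∧ φ x i - φ x (i + 1) ≤ v x i := fun x _ _ i _ _ => (hL x i).2
  have hh : ∀ a b, ∀ i, a ≤ i → i < b →
      φ (i + 1) 0 - φ i 0 ≤ h i 0 ∧ φ i 0 - φ (i + 1) 0 ≤ h i 0 := fun _ _ i _ _ => (hL i 0).1
  have hcol : ∀ x y, -W ≤ y → y ≤ W →
      ∑ i ∈ Ico (-W) y, en (v x i) + ∑ i ∈ Ico y W, en (v x i) ≤ col W v x := by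
    intro x y h1 h2
    rw [← sum_Ico_split _ h1 h2]
    exact sum_Ico_le_Icc _ _ _
  have F1 : ∀ x y, φ x y ≠ a → 4 ≤ col W v x := by
    intro x y hne
    have h1 : -W ≤ y := by
      by_contra hc
      exact hne (hout x y (Or.inl (by omega)))
    have h2 : y ≤ W := by
      by_contra hc
      exact hne (hout x y (Or.inr (Or.inl (by omega))))
    have h3 := line_two (φ x) (v x) (-W) y h1 (hv x _ _)
      (by rw [hout x (-W) (Or.inl le_rfl)]; exact hne.symm)
    have h4 := line_two (φ x) (v x) y W h2 (hv x _ _)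
      (by rw [hout x W (Or.inr (Or.inl le_rfl))]; exact hne)
    have := hcol x y h1 h2
    omega
  have F2 : ∀ x, (2 ≤ φ x 0 - a ∨ 2 ≤ a - φ x 0) → 6 ≤ col W v x := by
    intro x hne
    have h3 := line_three (φ x) (v x) (-W) 0 (by omega) (hv x _ _)
      (by rw [hout x (-W) (Or.inl le_rfl)]; omega)
    have h4 := line_three (φ x) (v x) 0 W hW (hv x _ _)
      (by rw [hout x W (Or.inr (Or.inl le_rfl))]; omega)
    have := hcol x 0 (by omega) hW
    omega
  have hleft : φ (-W) 0 = a := hout _ _ (Or.inr (Or.inr (Or.inl le_rfl)))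
  have hright : φ (n + 1 + W) 0 = a := hout _ _ (Or.inr (Or.inr (Or.inr le_rfl)))
  have hrow : ∑ i ∈ Ico (-W) 0, en (h i 0) + ∑ i ∈ Ico 0 j, en (h i 0) +
      ∑ i ∈ Ico j (n + 1 : ℤ), en (h i 0) + ∑ i ∈ Ico (n + 1 : ℤ) (n + 1 + W), en (h i 0) ≤
      row W (n + 1) h 0 := by
    rw [← sum_Ico_split _ (by omega) hj0, ← sum_Ico_split _ (by omega) (by omega),
      ← sum_Ico_split _ (by omega) (by omega)]
    exact sum_Ico_le_Icc _ _ _
  have hmid : ∑ i ∈ Ico (0 : ℤ) (n + 1 : ℤ), en (h i 0) =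
      ∑ i ∈ Ico 0 j, en (h i 0) + ∑ i ∈ Ico j (n + 1 : ℤ), en (h i 0) :=
    sum_Ico_split _ hj0 (by omega)
  have L2 := line_two (fun i => φ i 0) (fun i => h i 0) (-W) 0 (by omega) (hh _ _)
  have L3 := line_three (fun i => φ i 0) (fun i => h i 0) (-W) 0 (by omega) (hh _ _)
  have R2 := line_two (fun i => φ i 0) (fun i => h i 0) (n + 1) (n + 1 + W) (by omega) (hh _ _)
  have R3 := line_three (fun i => φ i 0) (fun i => h i 0) (n + 1) (n + 1 + W) (by omega) (hh _ _)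
  have M3 := line_three (fun i => φ i 0) (fun i => h i 0) 0 (n + 1) (by omega) (hh _ _)
  have A2 := line_two (fun i => φ i 0) (fun i => h i 0) 0 j hj0 (hh _ _)
  have B2 := line_two (fun i => φ i 0) (fun i => h i 0) j (n + 1) (by omega) (hh _ _)
  have B3 := line_three (fun i => φ i 0) (fun i => h i 0) j (n + 1) (by omega) (hh _ _)
  simp only [h0, hN, hleft, hright] at L2 L3 R2 R3 M3 A2 B2 B3
  have G0 := F2 0
  have GN := F2 (n + 1)
  have GN' := F1 (n + 1) 0
  rw [h0] at G0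
  rw [hN] at GN GN'
  by_cases hlight : col W v j ≤ 3
  · have hja : ∀ y, φ j y = a := by
      intro y
      by_contra hc
      have := F1 j y hc
      omega
    by_cases ha : a = 2
    · refine ⟨fun x y => if x ≤ j then φ x y else 2, ?_, ?_, ?_⟩
      · intro x y
        have h1 := hL x y
        have h2 : x = j → φ x y = a := fun e => e ▸ hja y
        simp only [delH, delV]
        split_ifs <;> omega
      · simp only [if_pos hj0, h0]
      · by_cases hnj : (n : ℤ) ≤ j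
        · have : (n : ℤ) = j := by omega
          simp only [this, le_refl, if_true, hja, ha]
        · simp only [if_neg hnj]
    · by_cases hc : ∃ c, j < c ∧ c ≤ n + 1 ∧ col W v c ≤ 3
      · obtain ⟨c, hc1, hc2, hc3⟩ := hc
        have hca : ∀ y, φ c y = a := by
          intro y
          by_contra hc
          have := F1 c y hc
          omega
        refine ⟨fun x y => if x ≤ j then φ x y else if x + 1 ≤ c then a else φ (x + 1) y,
          ?_, ?_, ?_⟩
        · intro x y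
          have h1 := hL x y
          have h1' := hL (x + 1) y
          have h2 : x = j → φ x y = a := fun e => e ▸ hja y
          have h3 : x + 1 = c → φ (x + 1) y = a := fun e => e ▸ hca y
          have h4 : x + 1 + 1 = c → φ (x + 1 + 1) y = a := fun e => e ▸ hca y
          simp only [delH, delV]
          split_ifs <;> omega
        · simp only [if_pos hj0, h0]
        · have hcN : c ≠ n + 1 := by
            intro hcN
            have := hca 0
            rw [hcN, hN] at this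
            exact ha this.symm
          simp only
          rw [if_neg (by omega), if_neg (by omega), hN]
      · exfalso
        have hc' : ∀ c, j < c → c ≤ n + 1 → 4 ≤ col W v c := by
          intro c h1 h2
          by_contra h3
          exact hc ⟨c, h1, h2, by omega⟩
        have hs := sum_two_le (col W v) n j (n + 1) (by simp; omega) (by simp; omega) (by omega) (by
          intro x hx h1 h2
          rw [Finset.mem_Icc] at hx
          rcases lt_or_gt_of_ne h1 with h3 | h3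
          · exact hheavy x hx.1 h3
          · exact hc' x h3 hx.2)
        rw [hja 0] at A2 B2 B3
        omega
  · exfalso
    have hjn' : j = n := by omega
    have hs := sum_two_le (col W v) n 0 (n + 1) (by simp; omega) (by simp; omega) (by omega) (by
      intro x hx h1 h2
      rw [Finset.mem_Icc] at hx
      rcases lt_or_ge x j with h3 | h3
      · exact hheavy x hx.1 h3
      · have : x = j := by omega
        rw [this]; omega)
    have h04 : 4 ≤ col W v 0 := by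
      rcases lt_or_ge 0 j with h3 | h3
      · exact hheavy 0 le_rfl h3
      · have : j = 0 := by omega
        rw [← this]; omega
    omega

theorem exists_zero_of_sum_lt (f : ℤ → ℕ) (S T : Finset ℤ) (hT : T ⊆ S)
    (hf : ∀ i, f i ≠ 1) (hlt : ∑ i ∈ S, f i < 2 * T.card) : ∃ i ∈ T, f i = 0 := by
  by_contra hc
  have h1 := Finset.card_nsmul_le_sum T f 2 (by
    intro x hx
    have h2 := hf x
    have h3 : f x ≠ 0 := fun h => hc ⟨x, hx, h⟩
    omega)
  have h2 : ∑ i ∈ T, f i ≤ ∑ i ∈ S, f i := Finset.sum_le_sum_of_subset hT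
  rw [smul_eq_mul] at h1
  have h3 : T.card * 2 ≤ ∑ i ∈ T, f i := h1
  omega

theorem sum_en_ne_one (s : Finset ℤ) (w : ℤ → ℕ) : ∑ i ∈ s, en (w i) ≠ 1 := by
  classical
  induction s using Finset.induction_on with
  | empty => simp
  | insert a s ha ih =>
    rw [Finset.sum_insert ha]
    have := en_cases (w a)
    omega

theorem zero_of_sum_en {s : Finset ℤ} {w : ℤ → ℕ} (h : ∑ i ∈ s, en (w i) = 0) :
    ∀ i ∈ s, w i = 0 := by
  intro i hi
  have h1 := (Finset.sum_eq_zero_iff.1 h) i hi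
  have := en_cases (w i)
  omega

/-- The main deterministic lemma, for a potential given on a box only. -/
theorem delete_box (h v : ℤ → ℤ → ℕ) (φ : ℤ → ℤ → ℤ) (n : ℕ) (W j : ℤ) (hW : W = 2 * n + 6)
    (hLh : ∀ x y, -W ≤ x → x < n + 1 + W → -W ≤ y → y ≤ W →
      φ (x + 1) y - φ x y ≤ h x y ∧ φ x y - φ (x + 1) y ≤ h x y)
    (hLv : ∀ x y, -W ≤ x → x ≤ n + 1 + W → -W ≤ y → y < W →
      φ x (y + 1) - φ x y ≤ v x y ∧ φ x y - φ x (y + 1) ≤ v x y)
    (hφ : ∀ x y, 0 ≤ φ x y ∧ φ x y ≤ 2) (h0 : φ 0 0 = 0) (hN : φ (n + 1) 0 = 2)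
    (hE : ∑ y ∈ Icc (-W) W, row W (n + 1) h y + ∑ x ∈ Icc (-W) (n + 1 + W), col W v x
      ≤ 4 * n + 11)
    (hj0 : 0 ≤ j) (hjn : j ≤ n) (hheavy : ∀ i, 0 ≤ i → i < j → 4 ≤ col W v i)
    (hj : j = n ∨ col W v j ≤ 3) :
    ∃ ψ : ℤ → ℤ → ℤ, Lip (delH j h) (delV j v) ψ ∧ ψ 0 0 = 0 ∧ ψ n 0 = 2 := by
  have hr1 : ∀ i, row W (n + 1) h i ≠ 1 := fun i => sum_en_ne_one _ _
  have hc1 : ∀ i, col W v i ≠ 1 := fun i => sum_en_ne_one _ _
  obtain ⟨y1, hy1, zy1⟩ := exists_zero_of_sum_lt (row W (n + 1) h) (Icc (-W) W) (Icc 1 W)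
    (Finset.Icc_subset_Icc (by omega) le_rfl) hr1 (by rw [Int.card_Icc]; omega)
  obtain ⟨y2, hy2, zy2⟩ := exists_zero_of_sum_lt (row W (n + 1) h) (Icc (-W) W) (Icc (-W) (-1))
    (Finset.Icc_subset_Icc le_rfl (by omega)) hr1 (by rw [Int.card_Icc]; omega)
  obtain ⟨x1, hx1, zx1⟩ := exists_zero_of_sum_lt (col W v) (Icc (-W) (n + 1 + W))
    (Icc (-W) (-1)) (Finset.Icc_subset_Icc le_rfl (by omega)) hc1 (by rw [Int.card_Icc]; omega)
  obtain ⟨x2, hx2, zx2⟩ := exists_zero_of_sum_lt (col W v) (Icc (-W) (n + 1 + W))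
    (Icc (n + 2) (n + 1 + W)) (Finset.Icc_subset_Icc (by omega) le_rfl) hc1
    (by rw [Int.card_Icc]; omega)
  rw [Finset.mem_Icc] at hy1 hy2 hx1 hx2
  have rowc : ∀ y, -W ≤ y → y ≤ W → row W (n + 1) h y = 0 → ∀ x, -W ≤ x → x ≤ n + 1 + W →
      φ (-W) y = φ x y := by
    intro y h1 h2 hz x h3 h4
    refine line_zero (fun i => φ i y) (fun i => h i y) (-W) x h3
      (fun i h5 h6 => hLh i y h5 (by omega) h1 h2) (fun i h5 h6 => ?_)
    exact zero_of_sum_en (w := fun i => h i y) hz i (Finset.mem_Icc.2 ⟨h5, by omega⟩)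
  have colc : ∀ x, -W ≤ x → x ≤ n + 1 + W → col W v x = 0 → ∀ y, -W ≤ y → y ≤ W →
      φ x (-W) = φ x y := by
    intro x h1 h2 hz y h3 h4
    refine line_zero (φ x) (v x) (-W) y h3
      (fun i h5 h6 => hLv x i h1 h2 h5 (by omega)) (fun i h5 h6 => ?_)
    exact zero_of_sum_en (w := v x) hz i (Finset.mem_Icc.2 ⟨h5, by omega⟩)
  set a := φ x1 (-W) with ha
  have fx1 : ∀ y, -W ≤ y → y ≤ W → φ x1 y = a := fun y h1 h2 =>
    (colc x1 (by omega) (by omega) zx1 y h1 h2).symm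
  have fy1 : ∀ x, -W ≤ x → x ≤ n + 1 + W → φ x y1 = a := by
    intro x h1 h2
    rw [← rowc y1 (by omega) (by omega) zy1 x h1 h2,
      rowc y1 (by omega) (by omega) zy1 x1 (by omega) (by omega), fx1 y1 (by omega) (by omega)]
  have fy2 : ∀ x, -W ≤ x → x ≤ n + 1 + W → φ x y2 = a := by
    intro x h1 h2
    rw [← rowc y2 (by omega) (by omega) zy2 x h1 h2,
      rowc y2 (by omega) (by omega) zy2 x1 (by omega) (by omega), fx1 y2 (by omega) (by omega)]
  have fx2 : ∀ y, -W ≤ y → y ≤ W → φ x2 y = a := by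
    intro y h1 h2
    rw [← colc x2 (by omega) (by omega) zx2 y h1 h2,
      colc x2 (by omega) (by omega) zx2 y1 (by omega) (by omega), fy1 x2 (by omega) (by omega)]
  let φ' : ℤ → ℤ → ℤ := fun x y => if x1 < x ∧ x < x2 ∧ y2 < y ∧ y < y1 then φ x y else a
  have hin : ∀ x y, x1 ≤ x → x ≤ x2 → y2 ≤ y → y ≤ y1 → φ' x y = φ x y := by
    intro x y h1 h2 h3 h4
    simp only [φ']
    split_ifs with hc
    · rfl
    · by_cases e1 : x = x1
      · rw [e1, fx1 y (by omega) (by omega)]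
      by_cases e2 : x = x2
      · rw [e2, fx2 y (by omega) (by omega)]
      by_cases e3 : y = y1
      · rw [e3, fy1 x (by omega) (by omega)]
      have e4 : y = y2 := by omega
      rw [e4, fy2 x (by omega) (by omega)]
  have hout : ∀ x y, (x ≤ x1 ∨ x2 ≤ x ∨ y ≤ y2 ∨ y1 ≤ y) → φ' x y = a := by
    intro x y hxy
    simp only [φ']
    rw [if_neg (by omega)]
  refine delete_global h v φ' n W a j (by omega) ?_ (hφ _ _).1 (hφ _ _).2 ?_ ?_ ?_ ?_ hj0 hjn
    hheavy hj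
  · intro x y
    constructor
    · by_cases hc : x1 ≤ x ∧ x + 1 ≤ x2 ∧ y2 ≤ y ∧ y ≤ y1
      · rw [hin x y (by omega) (by omega) (by omega) (by omega),
          hin (x + 1) y (by omega) (by omega) (by omega) (by omega)]
        exact hLh x y (by omega) (by omega) (by omega) (by omega)
      · rw [hout x y (by omega), hout (x + 1) y (by omega)]
        omega
    · by_cases hc : x1 ≤ x ∧ x ≤ x2 ∧ y2 ≤ y ∧ y + 1 ≤ y1
      · rw [hin x y (by omega) (by omega) (by omega) (by omega),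
          hin x (y + 1) (by omega) (by omega) (by omega) (by omega)]
        exact hLv x y (by omega) (by omega) (by omega) (by omega)
      · rw [hout x y (by omega), hout x (y + 1) (by omega)]
        omega
  · rw [hin 0 0 (by omega) (by omega) (by omega) (by omega), h0]
  · rw [hin _ 0 (by omega) (by omega) (by omega) (by omega), hN]
  · intro x y hxy
    exact hout x y (by omega)
  · have h1 : row W (n + 1) h 0 ≤ ∑ y ∈ Icc (-W) W, row W (n + 1) h y :=
      Finset.single_le_sum (f := row W (n + 1) h) (fun _ _ => Nat.zero_le _)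
        (Finset.mem_Icc.2 ⟨by omega, by omega⟩)
    have h2 : ∑ x ∈ Icc (0 : ℤ) (n + 1), col W v x ≤ ∑ x ∈ Icc (-W) (n + 1 + W), col W v x :=
      Finset.sum_le_sum_of_subset (Finset.Icc_subset_Icc (by omega) (by omega))
    omega

end Pool.Agent.H396Z.FPP
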