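import Mathlib

set_option autoImplicit false

/-! First-passage percolation on `ℤ^d`: definitions. -/

namespace Pool.Agent.H396Z.FPP

open MeasureTheory
open scoped NNReal

/-- The nearest-neighbour lattice `ℤ^d`: two points are adjacent if their `ℓ¹` distance is `1`. -/
def lattice (d : ℕ) : SimpleGraph (Fin d → ℤ) where
  Adj u v := ∑ i, |u i - v i| = 1
  symm := ⟨fun u v h => by simpa only [abs_sub_comm] using h⟩
  loopless := ⟨fun u h => by simp at h⟩

/-- The passage time `T(r)` of a lattice path `r`: the sum of the weights of its edges. -/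
noncomputable def pathTime {d : ℕ} (τ : (lattice d).edgeSet → ℝ≥0) {u v : Fin d → ℤ}
    (r : (lattice d).Walk u v) : ℝ≥0 :=
  (r.darts.map fun a => τ ⟨a.edge, a.edge_mem⟩).sum

/-- The first-passage time `T(u, v)`: the infimum of `T(r)` over lattice paths from `u` to `v`. -/
noncomputable def passageTime {d : ℕ} (τ : (lattice d).edgeSet → ℝ≥0) (u v : Fin d → ℤ) : ℝ≥0 :=
  ⨅ r : (lattice d).Walk u v, pathTime τ r

/-- The law of i.i.d. edge weights with distribution `F`: the product measure. -/
noncomputable def weightLaw (d : ℕ) (F : Measure ℝ≥0) : Measure ((lattice d).edgeSet → ℝ≥0) :=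
  Measure.infinitePi fun _ => F

end Pool.Agent.H396Z.FPP
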