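import Pool.Agent.H396Z.FPP.Basic
import Pool.Agent.H396Z.FPP.Comb

set_option autoImplicit false

/-! Deterministic statements on the deletion of a strip. -/

namespace Pool.Agent.H396Z.FPP

open MeasureTheory Finset
open scoped NNReal

/-- coarse graining of a weight -/
noncomputable def cg (m M : ℝ≥0) (w : ℝ≥0) : ℕ := if w ≤ m then 0 else if w ≤ M then 1 else 2

theorem cg_cases (m M w : ℝ≥0) :
    (cg m M w = 0 ∧ w ≤ m) ∨ (cg m M w = 1 ∧ w ≤ M) ∨ cg m M w = 2 := by
  unfold cg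
  split_ifs with h1 h2
  · exact Or.inl ⟨rfl, h1⟩
  · exact Or.inr (Or.inl ⟨rfl, h2⟩)
  · exact Or.inr (Or.inr rfl)

theorem measurable_cg (m M : ℝ≥0) : Measurable (cg m M) := by
  unfold cg
  exact Measurable.ite measurableSet_Iic measurable_const
    (Measurable.ite measurableSet_Iic measurable_const measurable_const)

/-- coarse horizontal weights -/
noncomputable def cH (m M : ℝ≥0) (ω : Idx → ℝ≥0) (x y : ℤ) : ℕ := cg m M (ω ((x, y), false))

/-- coarse vertical weights -/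
noncomputable def cV (m M : ℝ≥0) (ω : Idx → ℝ≥0) (x y : ℤ) : ℕ := cg m M (ω ((x, y), true))

/-- index map of the deletion of the strip to the right of column `j` -/
def delIdx (j : ℤ) (i : Idx) : Idx :=
  match i with
  | ((x, y), false) => ((if x < j then x else x + 1, y), false)
  | ((x, y), true) => ((if x ≤ j then x else x + 1, y), true)

theorem delIdx_injective (j : ℤ) : Function.Injective (delIdx j) := by
  rintro ⟨⟨x, y⟩, b⟩ ⟨⟨x', y'⟩, b'⟩ h
  cases b <;> cases b' <;>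
    simp only [delIdx, Prod.mk.injEq, and_true, Bool.false_eq_true, Bool.true_eq_false,
      and_false] at h ⊢
  · obtain ⟨h1, h2⟩ := h
    split_ifs at h1 <;> omega
  · obtain ⟨h1, h2⟩ := h
    split_ifs at h1 <;> omega

/-- deletion of the strip to the right of column `j` -/
def del (j : ℤ) (ω : Idx → ℝ≥0) : Idx → ℝ≥0 := fun i => ω (delIdx j i)

theorem cH_del (m M : ℝ≥0) (j : ℤ) (ω : Idx → ℝ≥0) : cH m M (del j ω) = delH j (cH m M ω) := by
  funext x y
  simp only [cH, del, delIdx, delH]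
  split_ifs <;> rfl

theorem cV_del (m M : ℝ≥0) (j : ℤ) (ω : Idx → ℝ≥0) : cV m M (del j ω) = delV j (cV m M ω) := by
  funext x y
  simp only [cV, del, delIdx, delV]
  split_ifs <;> rfl

theorem T_ge_of_Lip (m M : ℝ≥0) (ω : Idx → ℝ≥0) (hω : ∀ i, (M : ℝ) * cg m M (ω i) ≤ ω i)
    (ψ : ℤ → ℤ → ℤ) (hψ : Lip (cH m M ω) (cV m M ω) ψ) (x : ℤ) (h0 : ψ 0 0 = 0)
    (hx : ψ x 0 = 2) : 2 * (M : ℝ) ≤ T ω x 0 := by
  have hM : (0 : ℝ) ≤ M := M.2
  have key : ∀ (a b : ℤ) (i : Idx), a - b ≤ (cg m M (ω i) : ℕ) →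
      (M : ℝ) * a - (M : ℝ) * b ≤ ω i := by
    intro a b i h
    have h1 : (a : ℝ) - b ≤ (cg m M (ω i) : ℕ) := by exact_mod_cast h
    have h2 := mul_le_mul_of_nonneg_left h1 hM
    have := hω i
    linarith
  have := le_T ω (fun x y => (M : ℝ) * ψ x y)
    (fun x y => ⟨key _ _ _ (hψ x y).1.1, key _ _ _ (hψ x y).1.2⟩)
    (fun x y => ⟨key _ _ _ (hψ x y).2.1, key _ _ _ (hψ x y).2.2⟩) x 0
  simp only [h0, hx] at this
  push_cast at this
  linarith

theorem exists_threshold (B : Finset (ℤ × ℤ)) (f : ℤ × ℤ → ℝ) (m M : ℝ) (hm : 0 < m) :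
    ∃ s : ℝ, 0 < s ∧ s ≤ (2 * B.card + 1) * m ∧
      ∀ p ∈ B, (s - m ≤ f p → s ≤ f p) ∧ (s + M - m ≤ f p → s + M ≤ f p) := by
  classical
  have hcard : (B.image (fun p => ⌊f p / m⌋ + 1) ∪ B.image (fun p => ⌊(f p - M) / m⌋ + 1)).card <
      (Icc (1 : ℤ) (2 * B.card + 1)).card := by
    have h1 := Finset.card_union_le (B.image (fun p => ⌊f p / m⌋ + 1))
      (B.image (fun p => ⌊(f p - M) / m⌋ + 1))
    have h2 := Finset.card_image_le (s := B) (f := fun p => ⌊f p / m⌋ + 1)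
    have h3 := Finset.card_image_le (s := B) (f := fun p => ⌊(f p - M) / m⌋ + 1)
    rw [Int.card_Icc]
    omega
  obtain ⟨i, hi, hni⟩ := Finset.exists_mem_notMem_of_card_lt_card hcard
  rw [Finset.mem_Icc] at hi
  have hi1 : (1 : ℝ) ≤ i := by exact_mod_cast hi.1
  have hi2 : (i : ℝ) ≤ 2 * B.card + 1 := by exact_mod_cast hi.2
  have key : ∀ z : ℝ, i * m - m ≤ z → z < i * m → ⌊z / m⌋ + 1 = i := by
    intro z h1 h2
    have : ⌊z / m⌋ = i - 1 := by
      rw [Int.floor_eq_iff]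
      push_cast
      constructor
      · rw [le_div_iff₀ hm]; linarith
      · rw [div_lt_iff₀ hm]; linarith
    omega
  refine ⟨i * m, by positivity, mul_le_mul_of_nonneg_right hi2 hm.le, fun p hp => ⟨?_, ?_⟩⟩
  · intro h1
    by_contra h2
    exact hni (Finset.mem_union_left _ (Finset.mem_image.2 ⟨p, hp, key _ h1 (not_le.1 h2)⟩))
  · intro h1
    by_contra h2
    exact hni (Finset.mem_union_right _ (Finset.mem_image.2
      ⟨p, hp, key _ (by linarith) (by linarith [not_le.1 h2])⟩))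

/-- discretisation of a real potential -/
noncomputable def disc (s M z : ℝ) : ℤ := (if s ≤ z then 1 else 0) + (if s + M ≤ z then 1 else 0)

theorem disc_step (m M w : ℝ≥0) (s a b : ℝ) (hab : a ≤ b + w)
    (hb : (s - m ≤ b → s ≤ b) ∧ (s + M - m ≤ b → s + M ≤ b)) :
    disc s M a - disc s M b ≤ (cg m M w : ℕ) := by
  have hM : (0 : ℝ) ≤ M := M.2
  rcases cg_cases m M w with ⟨h1, h2⟩ | ⟨h1, h2⟩ | h1
  · have h3 : (w : ℝ) ≤ m := h2
    have h4 : s ≤ a → s ≤ b := fun h => hb.1 (by linarith)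
    have h5 : s + M ≤ a → s + M ≤ b := fun h => hb.2 (by linarith)
    rw [h1]
    unfold disc
    split_ifs <;> simp_all
  · have h3 : (w : ℝ) ≤ M := h2
    have h5 : s + M ≤ a → s ≤ b := fun h => by linarith
    rw [h1]
    unfold disc
    split_ifs <;> simp_all
  · rw [h1]
    unfold disc
    split_ifs <;> simp

/-- half-height of the box -/
def WW (n : ℕ) : ℤ := 2 * n + 6

/-- the box of vertices -/
noncomputable def box (n : ℕ) : Finset (ℤ × ℤ) :=
  Icc (-WW n) (n + 1 + WW n) ×ˢ Icc (-WW n) (WW n)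

/-- the box of edges -/
noncomputable def ebox (n : ℕ) : Finset Idx := box n ×ˢ Finset.univ

theorem energy_eq (n : ℕ) (g : Idx → ℕ) : ∑ i ∈ ebox n, en (g i) =
    ∑ y ∈ Icc (-WW n) (WW n), row (WW n) (n + 1) (fun x y => g ((x, y), false)) y +
      ∑ x ∈ Icc (-WW n) (n + 1 + WW n), col (WW n) (fun x y => g ((x, y), true)) x := by
  rw [ebox, Finset.sum_product]
  simp only [Fintype.sum_bool]
  rw [Finset.sum_add_distrib, add_comm]
  congr 1
  · rw [box, Finset.sum_product_right]; rfl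
  · rw [box, Finset.sum_product]; rfl

/-- the stopping rule: `j` is the first light column, or `n` -/
def Stop (m M : ℝ≥0) (n : ℕ) (j : ℤ) : Set (Idx → ℝ≥0) :=
  {ω | (∀ i, 0 ≤ i → i < j → 4 ≤ col (WW n) (cV m M ω) i) ∧
    (j = n ∨ col (WW n) (cV m M ω) j ≤ 3)}

theorem det_bad (m M : ℝ≥0) (n : ℕ) (hm : 0 < m)
    (hmM : 2 * ((2 * (box n).card + 1) * (m : ℝ)) ≤ M) (ω : Idx → ℝ≥0)
    (hω : ∀ i, (M : ℝ) * cg m M (ω i) ≤ ω i) (hT : 3 / 2 * (M : ℝ) < T ω (n + 1) 0)
    (hE : ∑ i ∈ ebox n, en (cg m M (ω i)) ≤ 4 * n + 11) (j : ℤ) (hj0 : 0 ≤ j) (hjn : j ≤ n)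
    (hj : ω ∈ Stop m M n j) : 2 * (M : ℝ) ≤ T (del j ω) n 0 := by
  obtain ⟨s, hs0, hs1, hs⟩ := exists_threshold (box n) (fun p => T ω p.1 p.2) m M hm
  have hbox : ∀ x y, -WW n ≤ x → x ≤ n + 1 + WW n → -WW n ≤ y → y ≤ WW n → (x, y) ∈ box n := by
    intro x y h1 h2 h3 h4
    simp only [box, Finset.mem_product, Finset.mem_Icc]
    exact ⟨⟨h1, h2⟩, h3, h4⟩
  have hM : (0 : ℝ) ≤ M := M.2
  rw [energy_eq] at hE
  obtain ⟨ψ, h1, h2, h3⟩ := delete_box (cH m M ω) (cV m M ω) (fun x y => disc s M (T ω x y)) n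
    (WW n) j rfl
    (fun x y h1 h2 h3 h4 =>
      ⟨disc_step m M _ s _ _ (T_h ω x y).1 (hs (x, y) (hbox _ _ h1 h2.le h3 h4)),
       disc_step m M _ s _ _ (T_h ω x y).2 (hs (x + 1, y) (hbox _ _ (by omega) (by omega) h3 h4))⟩)
    (fun x y h1 h2 h3 h4 =>
      ⟨disc_step m M _ s _ _ (T_v ω x y).1 (hs (x, y) (hbox _ _ h1 h2 h3 h4.le)),
       disc_step m M _ s _ _ (T_v ω x y).2 (hs (x, y + 1) (hbox _ _ h1 h2 (by omega) (by omega)))⟩)
    (fun x y => by unfold disc; split_ifs <;> simp)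
    (by
      simp only [T_zero, disc]
      rw [if_neg (by linarith), if_neg (by linarith)]; rfl)
    (by
      simp only [disc]
      rw [if_pos (by linarith), if_pos (by linarith)]; rfl)
    hE hj0 hjn hj.1 hj.2
  refine T_ge_of_Lip m M (del j ω) (fun i => hω _) ψ ?_ n h2 h3
  rw [cH_del, cV_del]
  exact h1

/-- the good configuration -/
def good (n : ℕ) (i : Idx) : ℕ :=
  match i with
  | ((x, y), false) => if y = 0 ∧ x = 0 then 2 else if y = 0 ∧ (x = -1 ∨ x = n + 1) then 1 else 0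
  | ((x, y), true) => if 0 ≤ x ∧ x ≤ n ∧ (y = 0 ∨ y = -1) then 1 else 0

theorem good_h (n : ℕ) (x y : ℤ) : good n ((x, y), false) =
    if y = 0 ∧ x = 0 then 2 else if y = 0 ∧ (x = -1 ∨ x = n + 1) then 1 else 0 := rfl

theorem good_v (n : ℕ) (x y : ℤ) : good n ((x, y), true) =
    if 0 ≤ x ∧ x ≤ n ∧ (y = 0 ∨ y = -1) then 1 else 0 := rfl

theorem good_le (n : ℕ) (i : Idx) : good n i ≤ 2 := by
  obtain ⟨⟨x, y⟩, b⟩ := i
  cases b <;> simp only [good] <;> split_ifs <;> omega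

theorem energy_good (n : ℕ) : ∑ i ∈ ebox n, en (good n i) ≤ 4 * n + 11 := by
  classical
  let S : Finset Idx := ((Icc (0 : ℤ) n ×ˢ ({0, -1} : Finset ℤ)) ×ˢ ({true} : Finset Bool)) ∪
    {((-1, 0), false), (((n : ℤ) + 1, 0), false)}
  have h1 : ∑ i ∈ ebox n, en (good n i) ≤ ∑ i ∈ insert ((0, 0), false) S, en (good n i) := by
    apply Finset.sum_le_sum_of_ne_zero
    rintro ⟨⟨x, y⟩, b⟩ _ h
    have h2 : good n ((x, y), b) ≠ 0 := by
      intro h3
      rw [h3] at h
      exact h rfl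
    cases b <;> simp only [good] at h2 <;> simp [S] <;> split_ifs at h2 <;> omega
  have h2 : (((0, 0), false) : Idx) ∉ S := by
    simp [S]; omega
  have h1' : ∑ i ∈ ebox n, en (good n i) ≤
      en (good n ((0, 0), false)) + ∑ i ∈ S, en (good n i) := by
    rw [Finset.sum_insert h2] at h1
    exact h1
  have h3 := Finset.sum_le_card_nsmul S (fun i => en (good n i)) 2 (by
    rintro ⟨⟨x, y⟩, b⟩ h
    have h4 : good n ((x, y), b) ≤ 1 := by
      cases b <;> simp [S] at h <;> simp only [good] <;> split_ifs <;> omega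
    have := en_cases (good n ((x, y), b))
    omega)
  have h4 : S.card ≤ 2 * n + 4 := by
    refine (Finset.card_union_le _ _).trans ?_
    have h5 : ({((-1, 0), false), (((n : ℤ) + 1, 0), false)} : Finset Idx).card ≤ 2 := Finset.card_le_two
    have h6 : ({0, -1} : Finset ℤ).card = 2 := rfl
    rw [Finset.card_product, Finset.card_product, Int.card_Icc, h6, Finset.card_singleton]
    omega
  have h5 : en (good n ((0, 0), false)) = 3 := by simp [good, en]
  rw [smul_eq_mul] at h3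
  have h6 : ∑ i ∈ S, en (good n i) ≤ S.card * 2 := h3
  omega

theorem mem_ebox (n : ℕ) (x y : ℤ) (b : Bool) (h1 : -1 ≤ x) (h2 : x ≤ n + 1) (h3 : -1 ≤ y)
    (h4 : y ≤ 1) : ((x, y), b) ∈ ebox n := by
  simp only [ebox, box, WW, Finset.mem_product, Finset.mem_Icc, Finset.mem_univ, and_true]
  omega

theorem det_good_stop (m M : ℝ≥0) (n : ℕ) (ω : Idx → ℝ≥0)
    (hg : ∀ i ∈ ebox n, cg m M (ω i) = good n i) : ω ∈ Stop m M n n := by
  refine ⟨fun i h1 h2 => ?_, Or.inl rfl⟩
  have e1 : cV m M ω i 0 = 1 := by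
    rw [cV, hg _ (mem_ebox n i 0 true (by omega) (by omega) (by omega) (by omega))]
    rw [good_v, if_pos (by omega)]
  have e2 : cV m M ω i (-1) = 1 := by
    rw [cV, hg _ (mem_ebox n i (-1) true (by omega) (by omega) (by omega) (by omega))]
    rw [good_v, if_pos (by omega)]
  have h3 : ∑ y ∈ ({0, -1} : Finset ℤ), en (cV m M ω i y) ≤ col (WW n) (cV m M ω) i := by
    apply Finset.sum_le_sum_of_subset
    intro y hy
    simp only [Finset.mem_insert, Finset.mem_singleton] at hy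
    simp only [Finset.mem_Icc, WW]
    omega
  rw [Finset.sum_pair (by norm_num), e1, e2] at h3
  exact h3

theorem det_good_del (m M : ℝ≥0) (n : ℕ) (hn : 1 ≤ n) (ω : Idx → ℝ≥0)
    (hω : ∀ i, (M : ℝ) * cg m M (ω i) ≤ ω i)
    (hg : ∀ i ∈ ebox n, cg m M (ω i) = good n i) : 2 * (M : ℝ) ≤ T (del n ω) n 0 := by
  refine T_ge_of_Lip m M (del n ω) (fun i => hω _)
    (fun x y => if y = 0 ∧ x = 0 then 0 else if y = 0 ∧ 1 ≤ x ∧ x ≤ n then 2 else 1) ?_ n ?_ ?_
  · rw [cH_del, cV_del]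
    intro x y
    have e1 : y = 0 → x = -1 → cH m M ω x y = 1 := by
      rintro rfl rfl
      rw [cH, hg _ (mem_ebox n _ _ false (by omega) (by omega) (by omega) (by omega))]
      simp [good]
    have e2 : y = 0 → x = 0 → cH m M ω x y = 2 := by
      rintro rfl rfl
      rw [cH, hg _ (mem_ebox n _ _ false (by omega) (by omega) (by omega) (by omega))]
      simp [good]
    have e3 : y = 0 → x = n → cH m M ω (x + 1) y = 1 := by
      rintro rfl rfl
      rw [cH, hg _ (mem_ebox n _ _ false (by omega) (by omega) (by omega) (by omega))]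
      rw [good_h, if_neg (by omega), if_pos (by omega)]
    have e4 : 0 ≤ x → x ≤ n → (y = 0 ∨ y = -1) → cV m M ω x y = 1 := by
      intro h1 h2 h3
      rw [cV, hg _ (mem_ebox n _ _ true (by omega) (by omega) (by omega) (by omega))]
      rw [good_v, if_pos (by omega)]
    simp only [delH, delV]
    split_ifs <;> omega
  · simp
  · show (if (0 : ℤ) = 0 ∧ (n : ℤ) = 0 then (0 : ℤ)
      else if (0 : ℤ) = 0 ∧ 1 ≤ (n : ℤ) ∧ (n : ℤ) ≤ n then 2 else 1) = 2
    rw [if_neg (by omega), if_pos (by omega)]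

theorem det_good_T (m M : ℝ≥0) (n : ℕ) (ω : Idx → ℝ≥0)
    (hg : ∀ i ∈ ebox n, cg m M (ω i) = good n i) : T ω (n + 1) 0 ≤ M + (n + 2) * (m : ℝ) := by
  have z : ∀ i ∈ ebox n, good n i = 0 → (ω i : ℝ) ≤ m := by
    intro i hi h
    rcases cg_cases m M (ω i) with ⟨_, h2⟩ | ⟨h1, _⟩ | h1
    · exact h2
    · rw [hg i hi, h] at h1; omega
    · rw [hg i hi, h] at h1; omega
  have o : (ω ((0, 0), true) : ℝ) ≤ M := by
    have hi := mem_ebox n 0 0 true (by omega) (by omega) (by omega) (by omega)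
    have h : good n ((0, 0), true) = 1 := by simp [good]
    rcases cg_cases m M (ω ((0, 0), true)) with ⟨h1, _⟩ | ⟨_, h2⟩ | h1
    · rw [hg _ hi, h] at h1; omega
    · exact h2
    · rw [hg _ hi, h] at h1; omega
  have h1 : ∀ k : ℕ, k ≤ n + 1 → T ω k 1 ≤ M + k * (m : ℝ) := by
    intro k
    induction k with
    | zero =>
      intro _
      have := (T_v ω 0 0).1
      rw [T_zero] at this
      simp only [zero_add] at this
      simp only [Nat.cast_zero, zero_mul, add_zero]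
      linarith
    | succ k ih =>
      intro hk
      have h2 := ih (by omega)
      have h3 := (T_h ω k 1).1
      have h4 := z _ (mem_ebox n k 1 false (by omega) (by omega) (by omega) (by omega))
        (by simp [good])
      push_cast
      linarith
  have h2 := h1 (n + 1) le_rfl
  have h3 := (T_v ω (n + 1) 0).2
  have h4 := z _ (mem_ebox n (n + 1) 0 true (by omega) (by omega) (by omega) (by omega))
    (by simp [good])
  push_cast at h2
  rw [zero_add] at h3
  linarith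

end Pool.Agent.H396Z.FPP
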