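import Pool.Agent.H396Z.FPP.Prob

set_option autoImplicit false

/-! The weight distribution and the final statement. -/

namespace Pool.Agent.H396Z.FPP

open MeasureTheory Finset Filter Topology
open scoped NNReal ENNReal

/-- tail probabilities -/
noncomputable def tl (k : ℕ) : ℝ := Real.exp (-(3 / 2 : ℝ) ^ k)

theorem tl_pos (k : ℕ) : 0 < tl k := Real.exp_pos _

theorem tl_anti : Antitone tl := by
  intro i j hij
  unfold tl
  rw [Real.exp_le_exp, neg_le_neg_iff]
  exact pow_le_pow_right₀ (by norm_num) hij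

theorem tl_le_one (k : ℕ) : tl k ≤ 1 := by
  unfold tl
  rw [Real.exp_le_one_iff]
  have : (0 : ℝ) < (3 / 2 : ℝ) ^ k := by positivity
  linarith

/-- the small parameter at scale `k` -/
noncomputable def eps (k : ℕ) : ℝ := Real.exp (-(3 / 2 : ℝ) ^ k / 2)

theorem eps_pos (k : ℕ) : 0 < eps k := Real.exp_pos _

theorem eps_sq (k : ℕ) : eps k ^ 2 = tl k := by
  unfold eps tl
  rw [← Real.exp_nat_mul]
  congr 1
  push_cast
  ring

theorem eps_cube (k : ℕ) : eps k ^ 3 = tl (k + 1) := by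
  unfold eps tl
  rw [← Real.exp_nat_mul]
  congr 1
  push_cast
  ring

theorem eps_tendsto : Tendsto eps atTop (𝓝 0) := by
  have h1 : Tendsto (fun k : ℕ => (3 / 2 : ℝ) ^ k) atTop atTop :=
    tendsto_pow_atTop_atTop_of_one_lt (by norm_num)
  have h2 : Tendsto (fun k : ℕ => (3 / 2 : ℝ) ^ k / 2) atTop atTop :=
    h1.atTop_div_const (by norm_num)
  refine (Real.tendsto_exp_neg_atTop_nhds_zero.comp h2).congr fun k => ?_
  simp only [eps, Function.comp, neg_div]

theorem tl_tendsto : Tendsto tl atTop (𝓝 0) := by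
  have := eps_tendsto.pow 2
  simp only [eps_sq] at this
  simpa using this

/-- the level of a uniform variable -/
noncomputable def lev (u : ℝ) : ℕ := sInf {k | tl k < u}

theorem lt_lev_iff (k : ℕ) (u : ℝ) : k < lev u ↔ u ∈ Set.Ioc 0 (tl k) := by
  constructor
  · intro h
    have hne : {k | tl k < u}.Nonempty := by
      by_contra hc
      rw [Set.not_nonempty_iff_eq_empty] at hc
      rw [lev, hc, Nat.sInf_empty] at h
      omega
    obtain ⟨i, hi⟩ := hne
    refine ⟨(tl_pos i).trans hi, ?_⟩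
    by_contra hc
    have : lev u ≤ k := Nat.sInf_le (not_le.1 hc)
    omega
  · rintro ⟨h1, h2⟩
    have hne : {k | tl k < u}.Nonempty := (tl_tendsto.eventually (gt_mem_nhds h1)).exists
    have h3 : tl (lev u) < u := Nat.sInf_mem hne
    by_contra hc
    have := tl_anti (not_lt.1 hc)
    linarith

theorem measurable_lev : Measurable lev := by
  refine measurable_of_Ioi fun k => ?_
  have : lev ⁻¹' Set.Ioi k = Set.Ioc 0 (tl k) := by
    ext u
    exact lt_lev_iff k u
  rw [this]
  exact measurableSet_Ioc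

/-- the atoms of the weight distribution -/
def atom (k : ℕ) : ℝ≥0 := ((k + 1).factorial : ℕ)

theorem atom_strictMono : StrictMono atom := by
  intro i j hij
  unfold atom
  exact_mod_cast (Nat.factorial_lt (by omega)).2 (by omega)

theorem atom_succ (k : ℕ) : (atom (k + 1) : ℝ) = (k + 2) * atom k := by
  unfold atom
  rw [Nat.factorial_succ (k + 1)]
  push_cast
  ring

theorem atom_pos (k : ℕ) : 0 < atom k := by
  unfold atom
  exact_mod_cast Nat.factorial_pos _

theorem measurable_atom_lev : Measurable fun u => atom (lev u) :=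
  (measurable_of_countable atom).comp measurable_lev

/-- the weight distribution -/
noncomputable def dist : Measure ℝ≥0 :=
  (volume.restrict (Set.Ioc (0 : ℝ) 1)).map fun u => atom (lev u)

instance : IsProbabilityMeasure dist := by
  have : IsProbabilityMeasure (volume.restrict (Set.Ioc (0 : ℝ) 1)) := ⟨by simp⟩
  exact Measure.isProbabilityMeasure_map measurable_atom_lev.aemeasurable

theorem dist_Ioi (k : ℕ) : dist (Set.Ioi (atom k)) = ENNReal.ofReal (tl k) := by
  rw [dist, Measure.map_apply measurable_atom_lev measurableSet_Ioi]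
  have : (fun u => atom (lev u)) ⁻¹' Set.Ioi (atom k) = Set.Ioc 0 (tl k) := by
    ext u
    rw [← lt_lev_iff]
    exact atom_strictMono.lt_iff_lt
  rw [this, Measure.restrict_apply measurableSet_Ioc,
    Set.inter_eq_left.2 (Set.Ioc_subset_Ioc le_rfl (tl_le_one k))]
  simp

theorem cg_pre_zero (m M : ℝ≥0) : cg m M ⁻¹' {0} = (Set.Ioi m)ᶜ := by
  ext w
  simp only [cg, Set.mem_preimage, Set.mem_singleton_iff, Set.mem_compl_iff, Set.mem_Ioi, not_lt]
  split_ifs <;> simp_all

theorem cg_pre_one (m M : ℝ≥0) : cg m M ⁻¹' {1} = Set.Ioi m \ Set.Ioi M := by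
  ext w
  simp only [cg, Set.mem_preimage, Set.mem_singleton_iff, Set.mem_sdiff, Set.mem_Ioi, not_lt]
  split_ifs <;> simp_all

theorem cg_pre_two (m M : ℝ≥0) (h : m ≤ M) : cg m M ⁻¹' {2} = Set.Ioi M := by
  ext w
  simp only [cg, Set.mem_preimage, Set.mem_singleton_iff, Set.mem_Ioi]
  split_ifs with h1 h2
  · simp [h1.trans h]
  · simp [h2]
  · simp [not_le.1 h2]

theorem cg_pre_big (m M : ℝ≥0) (k : ℕ) (h : 3 ≤ k) : cg m M ⁻¹' {k} = ∅ := by
  ext w
  have := cg_cases m M w
  simp only [Set.mem_preimage, Set.mem_singleton_iff, Set.mem_empty_iff_false, iff_false]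
  omega

theorem main_idx (n : ℕ) (hn : 1 ≤ n) : ∃ t : ℝ,
    PP dist {ω | t < T ω (n + 1) 0} < PP dist {ω | t < T ω n 0} := by
  have hc : (0 : ℝ) < (2⁻¹ : ℝ) ^ (ebox n).card / 3 ^ (ebox n).card := by positivity
  obtain ⟨k, hk1, hk2, hk3, hk4⟩ : ∃ k : ℕ, eps k < (2⁻¹ : ℝ) ^ (ebox n).card / 3 ^ (ebox n).card ∧
      eps k < 1 / 2 ∧ 2 * (2 * (box n).card + 1) ≤ k ∧ 2 * (n + 2) ≤ k :=
    ((eps_tendsto.eventually (gt_mem_nhds hc)).and ((eps_tendsto.eventually
      (gt_mem_nhds (by norm_num : (0 : ℝ) < 1 / 2))).and ((eventually_ge_atTop _).and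
        (eventually_ge_atTop _)))).exists
  have he := eps_pos k
  have hmM : atom k ≤ atom (k + 1) := atom_strictMono.monotone (Nat.le_succ k)
  have ham : (0 : ℝ) < atom k := atom_pos k
  have p0 : dist (cg (atom k) (atom (k + 1)) ⁻¹' {0}) = ENNReal.ofReal (1 - eps k ^ 2) := by
    rw [cg_pre_zero, prob_compl_eq_one_sub measurableSet_Ioi, dist_Ioi, eps_sq,
      ENNReal.ofReal_sub _ (tl_pos k).le, ENNReal.ofReal_one]
  have p1 : dist (cg (atom k) (atom (k + 1)) ⁻¹' {1}) = ENNReal.ofReal (eps k ^ 2 - eps k ^ 3) := by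
    rw [cg_pre_one, measure_sdiff (Set.Ioi_subset_Ioi hmM) measurableSet_Ioi.nullMeasurableSet
      (measure_ne_top _ _), dist_Ioi, dist_Ioi, eps_sq, eps_cube,
      ENNReal.ofReal_sub _ (tl_pos _).le]
  have p2 : dist (cg (atom k) (atom (k + 1)) ⁻¹' {2}) = ENNReal.ofReal (eps k ^ 3) := by
    rw [cg_pre_two _ _ hmM, dist_Ioi, eps_cube]
  have half : (2⁻¹ : ℝ≥0∞) = ENNReal.ofReal 2⁻¹ := by
    rw [ENNReal.ofReal_inv_of_pos (by norm_num)]; simp
  have hsq : eps k ^ 2 ≤ 1 / 2 := by nlinarith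
  have hcu : eps k ^ 3 ≤ eps k ^ 2 / 2 := by nlinarith [sq_nonneg (eps k)]
  refine ⟨3 / 2 * (atom (k + 1) : ℝ), core dist (atom k) (atom (k + 1)) (ENNReal.ofReal (eps k)) n
    hn (atom_pos k) ?_ ?_ ?_ ?_ ?_ ?_ ?_ ?_⟩
  · rw [atom_succ]
    have : (2 * (2 * (box n).card + 1) : ℝ) ≤ k := by exact_mod_cast hk3
    nlinarith
  · rw [atom_succ]
    have : (2 * (n + 2) : ℝ) ≤ k := by exact_mod_cast hk4
    nlinarith
  · simpa using he
  · exact ENNReal.ofReal_le_one.2 (by linarith)
  · rw [half, ← ENNReal.ofReal_pow (by norm_num), show (3 : ℝ≥0∞) = ENNReal.ofReal 3 by simp,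
      ← ENNReal.ofReal_pow (by norm_num), ← ENNReal.ofReal_mul (by positivity),
      ENNReal.ofReal_lt_ofReal_iff (by positivity)]
    rw [lt_div_iff₀ (by positivity)] at hk1
    linarith
  · intro j
    rw [← ENNReal.ofReal_pow he.le]
    rcases en_cases j with ⟨rfl, h⟩ | ⟨rfl, h⟩ | ⟨h1, h⟩
    · rw [h, p0]
      exact ENNReal.ofReal_le_ofReal (by nlinarith)
    · rw [h, p1]
      exact ENNReal.ofReal_le_ofReal (by have := pow_pos he 3; linarith)
    · rcases h1.eq_or_lt with rfl | h2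
      · rw [h, p2]
      · rw [cg_pre_big _ _ _ h2]; simp
  · intro j hj
    rw [← ENNReal.ofReal_pow he.le, half, ← ENNReal.ofReal_mul (by norm_num)]
    rcases en_cases j with ⟨rfl, h⟩ | ⟨rfl, h⟩ | ⟨h1, h⟩
    · rw [h, p0]
      exact ENNReal.ofReal_le_ofReal (by nlinarith)
    · rw [h, p1]
      exact ENNReal.ofReal_le_ofReal (by linarith)
    · have : j = 2 := by omega
      subst this
      rw [h, p2]
      exact ENNReal.ofReal_le_ofReal (by have := pow_pos he 3; linarith)
  · have hms : MeasurableSet {w : ℝ≥0 | (atom (k + 1) : ℝ) * cg (atom k) (atom (k + 1)) w ≤ w} := by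
      refine measurableSet_le (measurable_const.mul ?_) measurable_coe_nnreal_real
      exact (measurable_of_countable (fun j : ℕ => (j : ℝ))).comp (measurable_cg _ _)
    rw [dist, ae_map_iff measurable_atom_lev.aemeasurable hms]
    refine Eventually.of_forall fun u => ?_
    unfold cg
    split_ifs with h1 h2
    · simp
    · have h3 : k < lev u := atom_strictMono.lt_iff_lt.1 (not_le.1 h1)
      have h4 : atom (k + 1) ≤ atom (lev u) := atom_strictMono.monotone h3
      simpa using h4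
    · have h3 : k + 1 < lev u := atom_strictMono.lt_iff_lt.1 (not_le.1 h2)
      have h4 : (atom (k + 1 + 1) : ℝ) ≤ atom (lev u) := atom_strictMono.monotone h3
      rw [atom_succ] at h4
      have h5 : (0 : ℝ) < atom (k + 1) := atom_pos _
      push_cast at h4 ⊢
      have : (0 : ℝ) ≤ k := Nat.cast_nonneg k
      nlinarith

theorem law_eq (F : Measure ℝ≥0) [IsProbabilityMeasure F] (x : ℤ) (t : ℝ) :
    weightLaw 2 F {τ | t < (passageTime τ 0 (Pi.single 0 x) : ℝ)} = PP F {ω | t < T ω x 0} := by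
  have e0 : (0 : Fin 2 → ℤ) = ![0, 0] := by
    funext i; fin_cases i <;> rfl
  have e1 : (Pi.single 0 x : Fin 2 → ℤ) = ![x, 0] := by
    funext i; fin_cases i <;> simp
  rw [← map_toW, Measure.map_apply measurable_toW
    (measurableSet_lt measurable_const (measurable_passageTime _ _).coe_nnreal_real), e0, e1]
  rfl

theorem main : ∃ F : Measure ℝ≥0, IsProbabilityMeasure F ∧ ∀ n : ℕ, 1 ≤ n → ∃ t : ℝ,
    weightLaw 2 F {τ | t < (passageTime τ 0 (Pi.single 0 ((n : ℤ) + 1)) : ℝ)} <
      weightLaw 2 F {τ | t < (passageTime τ 0 (Pi.single 0 (n : ℤ)) : ℝ)} := by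
  refine ⟨dist, inferInstance, fun n hn => ?_⟩
  obtain ⟨t, ht⟩ := main_idx n hn
  exact ⟨t, by rw [law_eq, law_eq]; exact ht⟩

end Pool.Agent.H396Z.FPP
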