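import Pool.Agent.H396Z.FPP.Det

set_option autoImplicit false

/-! The probabilistic comparison. -/

namespace Pool.Agent.H396Z.FPP

open MeasureTheory Finset
open scoped NNReal ENNReal

/-- the product measure on the index set -/
noncomputable def PP (F : Measure ℝ≥0) : Measure (Idx → ℝ≥0) := Measure.infinitePi fun _ => F

instance (F : Measure ℝ≥0) [IsProbabilityMeasure F] : IsProbabilityMeasure (PP F) := by
  unfold PP; infer_instance

theorem measurable_del (j : ℤ) : Measurable (del j) := by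
  unfold del
  fun_prop

theorem map_del (F : Measure ℝ≥0) [IsProbabilityMeasure F] (j : ℤ) : (PP F).map (del j) = PP F :=
  Measure.map_infinitePi_infinitePi_of_inj (P := fun _ : Idx => F) (delIdx_injective j)

theorem measurable_col (m M : ℝ≥0) (W x : ℤ) :
    Measurable fun ω : Idx → ℝ≥0 => col W (cV m M ω) x := by
  unfold col cV
  refine Finset.measurable_sum _ fun y _ => ?_
  exact (measurable_of_countable en).comp ((measurable_cg m M).comp (measurable_pi_apply _))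

theorem measurableSet_Stop (m M : ℝ≥0) (n : ℕ) (j : ℤ) : MeasurableSet (Stop m M n j) := by
  have h1 : ∀ i, MeasurableSet {ω : Idx → ℝ≥0 | 4 ≤ col (WW n) (cV m M ω) i} := fun i =>
    measurable_col m M (WW n) i (t := {k | 4 ≤ k}) MeasurableSet.of_discrete
  have h2 : MeasurableSet {ω : Idx → ℝ≥0 | col (WW n) (cV m M ω) j ≤ 3} :=
    measurable_col m M (WW n) j (t := {k | k ≤ 3}) MeasurableSet.of_discrete
  have e : Stop m M n j = (⋂ i, ⋂ (_ : 0 ≤ i), ⋂ (_ : i < j),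
      {ω : Idx → ℝ≥0 | 4 ≤ col (WW n) (cV m M ω) i}) ∩
      ({_ω : Idx → ℝ≥0 | j = n} ∪ {ω : Idx → ℝ≥0 | col (WW n) (cV m M ω) j ≤ 3}) := by
    ext ω
    simp [Stop]
  rw [e]
  exact (MeasurableSet.iInter fun i => MeasurableSet.iInter fun _ => MeasurableSet.iInter
    fun _ => h1 i).inter ((MeasurableSet.const _).union h2)

theorem col_del (m M : ℝ≥0) (W j i : ℤ) (hi : i ≤ j) (ω : Idx → ℝ≥0) :
    col W (cV m M (del j ω)) i = col W (cV m M ω) i := by
  rw [cV_del]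
  unfold col delV
  simp only [if_pos hi]

theorem del_mem_Stop (m M : ℝ≥0) (n : ℕ) (j : ℤ) (ω : Idx → ℝ≥0) (h : ω ∈ Stop m M n j) :
    del j ω ∈ Stop m M n j := by
  refine ⟨fun i h1 h2 => ?_, ?_⟩
  · rw [col_del _ _ _ _ _ h2.le]; exact h.1 i h1 h2
  · rw [col_del _ _ _ _ _ le_rfl]; exact h.2

theorem exists_Stop (m M : ℝ≥0) (n : ℕ) (ω : Idx → ℝ≥0) :
    ∃ j ∈ Icc (0 : ℤ) n, ω ∈ Stop m M n j := by
  classical
  have hex : ∃ k : ℕ, k = n ∨ col (WW n) (cV m M ω) k ≤ 3 := ⟨n, Or.inl rfl⟩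
  have h1 := Nat.find_spec hex
  have h2 : Nat.find hex ≤ n := Nat.find_min' hex (Or.inl rfl)
  refine ⟨Nat.find hex, Finset.mem_Icc.2 ⟨by omega, by omega⟩, fun i h3 h4 => ?_, ?_⟩
  · obtain ⟨k, rfl⟩ := Int.eq_ofNat_of_zero_le h3
    have := Nat.find_min hex (m := k) (by omega)
    omega
  · rcases h1 with h1 | h1
    · left; omega
    · right; exact h1

theorem Stop_disjoint (m M : ℝ≥0) (n : ℕ) (i j : ℤ) (hi : i ∈ Icc (0 : ℤ) n)
    (hj : j ∈ Icc (0 : ℤ) n) (hij : i ≠ j) : Disjoint (Stop m M n i) (Stop m M n j) := by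
  rw [Finset.mem_Icc] at hi hj
  rw [Set.disjoint_left]
  intro ω h1 h2
  rcases lt_or_gt_of_ne hij with h | h
  · have := h2.1 i hi.1 h
    have := h1.2
    omega
  · have := h1.1 j hj.1 h
    have := h2.2
    omega

theorem measure_del_le (F : Measure ℝ≥0) [IsProbabilityMeasure F] (m M : ℝ≥0) (n : ℕ)
    (A : Set (Idx → ℝ≥0)) (hA : MeasurableSet A) :
    PP F (⋃ j ∈ Icc (0 : ℤ) n, del j ⁻¹' (Stop m M n j ∩ A)) ≤ PP F A := by
  refine (measure_biUnion_finset_le _ _).trans ?_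
  have h1 : ∀ j, PP F (del j ⁻¹' (Stop m M n j ∩ A)) = PP F (Stop m M n j ∩ A) := by
    intro j
    rw [← Measure.map_apply (measurable_del j) ((measurableSet_Stop m M n j).inter hA), map_del]
  simp only [h1]
  rw [← measure_biUnion_finset]
  · exact measure_mono (Set.iUnion₂_subset fun _ _ => Set.inter_subset_right)
  · intro i hi j hj hij
    exact (Stop_disjoint m M n i j hi hj hij).mono Set.inter_subset_left Set.inter_subset_left
  · exact fun j _ => (measurableSet_Stop m M n j).inter hA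

/-- cylinder of a coarse configuration -/
def cyl (m M : ℝ≥0) (S : Finset Idx) (g : Idx → ℕ) : Set (Idx → ℝ≥0) :=
  Set.pi S fun i => cg m M ⁻¹' {g i}

theorem measurableSet_cyl (m M : ℝ≥0) (S : Finset Idx) (g : Idx → ℕ) :
    MeasurableSet (cyl m M S g) :=
  MeasurableSet.pi S.countable_toSet fun _ _ => measurable_cg m M (measurableSet_singleton _)

theorem measure_cyl (F : Measure ℝ≥0) [IsProbabilityMeasure F] (m M : ℝ≥0) (S : Finset Idx)
    (g : Idx → ℕ) : PP F (cyl m M S g) = ∏ i ∈ S, F (cg m M ⁻¹' {g i}) :=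
  Measure.infinitePi_pi (fun _ : Idx => F) fun _ _ => measurable_cg m M (measurableSet_singleton _)

theorem measure_bad_le (F : Measure ℝ≥0) [IsProbabilityMeasure F] (m M : ℝ≥0) (ε : ℝ≥0∞)
    (hε : ε ≤ 1) (hF : ∀ k, F (cg m M ⁻¹' {k}) ≤ ε ^ en k) (S : Finset Idx) (K : ℕ) :
    PP F {ω | K ≤ ∑ i ∈ S, en (cg m M (ω i))} ≤ 3 ^ S.card * ε ^ K := by
  classical
  let G : (S → Fin 3) → Idx → ℕ := fun g i => if h : i ∈ S then g ⟨i, h⟩ else 0
  have hsub : {ω | K ≤ ∑ i ∈ S, en (cg m M (ω i))} ⊆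
      ⋃ g ∈ (Finset.univ : Finset (S → Fin 3)).filter (fun g => K ≤ ∑ i ∈ S, en (G g i)),
        cyl m M S (G g) := by
    intro ω hω
    have hlt : ∀ w, cg m M w < 3 := fun w => by have := cg_cases m M w; omega
    let g : S → Fin 3 := fun i => ⟨cg m M (ω i), hlt _⟩
    have hg : ∀ i ∈ S, G g i = cg m M (ω i) := fun i hi => by simp [G, g, hi]
    simp only [Set.mem_iUnion]
    refine ⟨g, ?_, fun i hi => (hg i hi).symm⟩
    rw [Finset.mem_filter]
    refine ⟨Finset.mem_univ _, ?_⟩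
    rw [Finset.sum_congr rfl fun i hi => by rw [hg i hi]]
    exact hω
  refine (measure_mono hsub).trans ((measure_biUnion_finset_le _ _).trans ?_)
  refine (Finset.sum_le_card_nsmul _ _ (ε ^ K) ?_).trans ?_
  · intro g hg
    rw [Finset.mem_filter] at hg
    rw [measure_cyl]
    refine (Finset.prod_le_prod' fun i _ => hF (G g i)).trans ?_
    rw [Finset.prod_pow_eq_pow_sum]
    exact pow_le_pow_right_of_le_one' hε hg.2
  · rw [nsmul_eq_mul]
    gcongr
    have h1 := Finset.card_filter_le (Finset.univ : Finset (S → Fin 3))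
      (fun g => K ≤ ∑ i ∈ S, en (G g i))
    rw [Finset.card_univ, Fintype.card_fun, Fintype.card_fin, Fintype.card_coe] at h1
    exact_mod_cast h1

theorem measure_good_ge (F : Measure ℝ≥0) [IsProbabilityMeasure F] (m M : ℝ≥0) (ε : ℝ≥0∞)
    (hε : ε ≤ 1) (hF : ∀ k, k ≤ 2 → 2⁻¹ * ε ^ en k ≤ F (cg m M ⁻¹' {k})) (n : ℕ) :
    2⁻¹ ^ (ebox n).card * ε ^ (4 * n + 11) ≤ PP F (cyl m M (ebox n) (good n)) := by
  rw [measure_cyl]
  refine le_trans ?_ (Finset.prod_le_prod' fun i _ => hF (good n i) (good_le n i))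
  rw [Finset.prod_mul_distrib, Finset.prod_const, Finset.prod_pow_eq_pow_sum]
  exact mul_le_mul' le_rfl (pow_le_pow_right_of_le_one' hε (energy_good n))

/-- The core comparison. -/
theorem core (F : Measure ℝ≥0) [IsProbabilityMeasure F] (m M : ℝ≥0) (ε : ℝ≥0∞) (n : ℕ)
    (hn : 1 ≤ n) (hm : 0 < m) (hmM : 2 * ((2 * (box n).card + 1) * (m : ℝ)) ≤ M)
    (hmM' : 2 * ((n + 2) * (m : ℝ)) ≤ M) (hε0 : ε ≠ 0) (hε : ε ≤ 1)
    (hsmall : 3 ^ (ebox n).card * ε < 2⁻¹ ^ (ebox n).card)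
    (hF1 : ∀ k, F (cg m M ⁻¹' {k}) ≤ ε ^ en k)
    (hF2 : ∀ k, k ≤ 2 → 2⁻¹ * ε ^ en k ≤ F (cg m M ⁻¹' {k}))
    (hF3 : ∀ᵐ w ∂F, (M : ℝ) * cg m M w ≤ w) :
    PP F {ω | 3 / 2 * (M : ℝ) < T ω (n + 1) 0} < PP F {ω | 3 / 2 * (M : ℝ) < T ω n 0} := by
  have hMpos : (0 : ℝ) < M := by
    have : (0 : ℝ) < m := hm
    have : (0 : ℝ) < 2 * ((n + 2) * (m : ℝ)) := by positivity
    linarith
  set A : Set (Idx → ℝ≥0) := {ω | 3 / 2 * (M : ℝ) < T ω n 0} with hA
  set A' : Set (Idx → ℝ≥0) := {ω | 3 / 2 * (M : ℝ) < T ω (n + 1) 0} with hA'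
  set G := cyl m M (ebox n) (good n) with hG
  set B : Set (Idx → ℝ≥0) := {ω | 4 * n + 12 ≤ ∑ i ∈ ebox n, en (cg m M (ω i))} with hB
  have mA : MeasurableSet A := measurableSet_lt measurable_const (measurable_T _ _)
  have hae : ∀ᵐ ω ∂PP F, ∀ i, (M : ℝ) * cg m M (ω i) ≤ ω i := by
    rw [ae_all_iff]
    intro i
    exact (measurePreserving_eval_infinitePi (fun _ : Idx => F) i).quasiMeasurePreserving.ae hF3
  have hdisj : Disjoint A' G := by
    rw [Set.disjoint_left]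
    intro ω h1 h2
    have h3 := det_good_T m M n ω h2
    have h4 : 3 / 2 * (M : ℝ) < T ω (n + 1) 0 := h1
    linarith
  have hsub : (A' ∪ G : Set (Idx → ℝ≥0)) ≤ᵐ[PP F]
      ((⋃ j ∈ Icc (0 : ℤ) n, del j ⁻¹' (Stop m M n j ∩ A)) ∪ B : Set (Idx → ℝ≥0)) := by
    filter_upwards [hae] with ω hω h
    rcases h with h | h
    · by_cases hb : ω ∈ B
      · exact Or.inr hb
      · left
        obtain ⟨j, hj, hs⟩ := exists_Stop m M n ω
        have hj' := Finset.mem_Icc.1 hj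
        have h1 := det_bad m M n hm hmM ω hω h (by
          have : ¬ 4 * n + 12 ≤ ∑ i ∈ ebox n, en (cg m M (ω i)) := hb
          omega) j hj'.1 hj'.2 hs
        simp only [Set.mem_iUnion]
        refine ⟨j, hj, del_mem_Stop m M n j ω hs, ?_⟩
        show 3 / 2 * (M : ℝ) < T (del j ω) n 0
        linarith
    · left
      have h1 := det_good_del m M n hn ω hω h
      simp only [Set.mem_iUnion]
      refine ⟨n, Finset.mem_Icc.2 ⟨by omega, le_rfl⟩,
        del_mem_Stop m M n n ω (det_good_stop m M n ω h), ?_⟩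
      show 3 / 2 * (M : ℝ) < T (del n ω) n 0
      linarith
  have h1 : PP F A' + PP F G ≤ PP F A + PP F B := by
    rw [← measure_union hdisj (measurableSet_cyl _ _ _ _)]
    refine (measure_mono_ae hsub).trans ((measure_union_le _ _).trans ?_)
    exact add_le_add (measure_del_le F m M n A mA) le_rfl
  have h2 : PP F B < PP F G := by
    refine (measure_bad_le F m M ε hε hF1 (ebox n) (4 * n + 12)).trans_lt
      (lt_of_lt_of_le ?_ (measure_good_ge F m M ε hε hF2 n))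
    rw [show 4 * n + 12 = 1 + (4 * n + 11) by ring, pow_add, pow_one, ← mul_assoc]
    refine ENNReal.mul_lt_mul_left (pow_ne_zero _ hε0) ?_ hsmall
    exact ne_top_of_le_ne_top ENNReal.one_ne_top (pow_le_one' hε _)
  by_contra hc
  have h3 : PP F A + PP F B < PP F A' + PP F G :=
    ENNReal.add_lt_add_of_le_of_lt (measure_ne_top _ _) (not_lt.1 hc) h2
  exact absurd h1 (not_le.2 h3)

end Pool.Agent.H396Z.FPP
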